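import Pool.Agent.Helper29.SR.Props
import Pool.Agent.Helper31.RC.QB2
import Pool.Agent.Helper69.RC.QB1

/-!
# MP_b55b7c_an, packet SR-MinM: a common lower bound of two ranks, for matrices
-/

open scoped ENNReal NNReal InnerProductSpace ComplexOrder
open Filter Topology

attribute [-instance] CStarMatrix.instAlgebra CStarMatrix.instModule CStarMatrix.instSMul
  CStarMatrix.instMulAction CStarMatrix.instDistribMulAction

set_option linter.unusedSectionVars false

noncomputable section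
namespace RC
universe u

namespace MinM86

open QB231

variable {A : Type u} [CStarAlgebra A] [PartialOrder A] [StarOrderedRing A]
variable {ι κ : Type} [Fintype ι] [DecidableEq ι] [Fintype κ] [DecidableEq κ]

/-- The `(κ, ι)` block. -/
def blk (X : CStarMatrix (ι ⊕ κ) (ι ⊕ κ) A) : CStarMatrix κ ι A :=
  CStarMatrix.ofMatrix fun k i => X (Sum.inr k) (Sum.inl i)

lemma blk_apply (X : CStarMatrix (ι ⊕ κ) (ι ⊕ κ) A) (k : κ) (i : ι) :
    blk X k i = X (Sum.inr k) (Sum.inl i) := rfl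

lemma zero_app {μ ν : Type} (i : μ) (j : ν) : (0 : CStarMatrix μ ν A) i j = 0 := rfl

/-- `b' X a'` has only the `(κ, ι)` block. -/
lemma prod_apply (a : CStarMatrix ι ι A) (b : CStarMatrix κ κ A)
    (X : CStarMatrix (ι ⊕ κ) (ι ⊕ κ) A) (p q : ι ⊕ κ) :
    (dsum (0 : CStarMatrix ι ι A) b * X * dsum a (0 : CStarMatrix κ κ A)) p q =
      Sum.elim (fun _ => (0 : A)) (fun k => Sum.elim (fun i => (b * blk X * a) k i)
        (fun _ => (0 : A)) q) p := by
  have h1 : ∀ p r, (dsum (0 : CStarMatrix ι ι A) b * X) p r =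
      Sum.elim (fun _ => (0 : A)) (fun k => ∑ l, b k l * X (Sum.inr l) r) p := by
    intro p r
    rw [CStarMatrix.mul_apply, Fintype.sum_sum_type]
    rcases p with p | p
    · simp only [dsum_inl_inl, dsum_inl_inr, zero_app, zero_mul, Finset.sum_const_zero,
        add_zero, Sum.elim_inl]
    · simp only [dsum_inr_inl, dsum_inr_inr, zero_mul, Finset.sum_const_zero,
        zero_add, Sum.elim_inr]
  rw [CStarMatrix.mul_apply, Fintype.sum_sum_type]
  simp only [h1]
  rcases p with p | p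
  · simp only [Sum.elim_inl, zero_mul, Finset.sum_const_zero, add_zero]
  · rcases q with q | q
    · simp only [Sum.elim_inr, Sum.elim_inl, dsum_inl_inl, dsum_inr_inl, mul_zero,
        Finset.sum_const_zero, add_zero]
      rw [CStarMatrix.mul_apply]
      refine Finset.sum_congr rfl fun i _ => ?_
      rw [CStarMatrix.mul_apply]
      rfl
    · simp only [Sum.elim_inr, dsum_inl_inr, dsum_inr_inr, zero_app, mul_zero,
        Finset.sum_const_zero, add_zero]

lemma sq_prod (a : CStarMatrix ι ι A) (b : CStarMatrix κ κ A)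
    (X : CStarMatrix (ι ⊕ κ) (ι ⊕ κ) A) :
    sq (dsum (0 : CStarMatrix ι ι A) b * X * dsum a (0 : CStarMatrix κ κ A)) =
      dsum ((b * blk X * a).conjTranspose * (b * blk X * a)) (0 : CStarMatrix κ κ A) := by
  ext p q
  show (star (dsum (0 : CStarMatrix ι ι A) b * X * dsum a (0 : CStarMatrix κ κ A)) *
    (dsum (0 : CStarMatrix ι ι A) b * X * dsum a (0 : CStarMatrix κ κ A))) p q = _
  rw [CStarMatrix.mul_apply, Fintype.sum_sum_type]
  simp only [CStarMatrix.star_apply, prod_apply, Sum.elim_inl, Sum.elim_inr, star_zero, zero_mul,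
    Finset.sum_const_zero, zero_add]
  rcases p with p | p <;> rcases q with q | q
  · simp only [Sum.elim_inl, dsum_inl_inl]
    rw [CStarMatrix.mul_apply]
    rfl
  · simp only [Sum.elim_inr, dsum_inl_inr, mul_zero, Finset.sum_const_zero]
  · simp only [Sum.elim_inr, dsum_inr_inl, star_zero, zero_mul, Finset.sum_const_zero]
  · simp only [Sum.elim_inr, dsum_inr_inr, star_zero, zero_mul, Finset.sum_const_zero, zero_app]

lemma cut_zero_eq {D : Type u} [CStarAlgebra D] [PartialOrder D] [StarOrderedRing D] {s : ℝ}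
    (hs : 0 ≤ s) : cut (0 : D) s = 0 := by
  unfold cut
  rw [cfc_apply_zero]
  have : max ((0 : ℝ) - s) 0 = 0 := max_eq_right (by linarith)
  rw [this, map_zero]

lemma dim_zero (σ : QTrace A) : σ.dim (0 : CStarMatrix κ κ A) = 0 := by
  unfold QTrace.dim
  have : ∀ n : ℕ, σ.τ κ (cfc (fun t : ℝ => min 1 ((n : ℝ) * t)) (0 : CStarMatrix κ κ A)) = 0 := by
    intro n
    rw [cfc_apply_zero]
    have : min (1 : ℝ) ((n : ℝ) * 0) = 0 := by simp
    rw [this, map_zero, σ.zero]
  simp only [this]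
  exact ciSup_const

lemma cut_dsum_zero {c : CStarMatrix ι ι A} (hc : 0 ≤ c) {s : ℝ} (hs : 0 ≤ s) :
    cut (dsum c (0 : CStarMatrix κ κ A)) s = dsum (cut c s) (0 : CStarMatrix κ κ A) := by
  have h := dsum_cfc (fun t : ℝ => max (t - s) 0) (by fun_prop) hc
    (le_refl (0 : CStarMatrix κ κ A))
  have h2 := cut_zero_eq (D := CStarMatrix κ κ A) hs
  unfold cut at h2 ⊢
  rw [← h, h2]

end MinM86

open MinM86

/-- **SR-MinM.** -/
theorem minMP (hC : MinCP.{u}) (hS : MatSRP.{u}) (hT : MatTP.{u}) : MinMP.{u} := by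
  intro M _ _ _ hM ι κ _ _ _ _ a b m ha hb hm ε hε
  cases isEmpty_or_nonempty (ι ⊕ κ) with
  | inl h =>
    refine ⟨0, 1, one_pos, fun φ σ hσ => ?_⟩
    have h1 := (hm φ σ hσ).1
    have h2 := (qBasicP M σ ι a ha).2.2.1
    have h3 : IsEmpty ι := (isEmpty_sum.1 h).1
    rw [Fintype.card_eq_zero, Nat.cast_zero] at h2
    have h4 := (qBasicP M σ ι (cut ((b * (0 : CStarMatrix κ ι M) * a).conjTranspose *
      (b * (0 : CStarMatrix κ ι M) * a)) 1) (cut_nonneg _ _)).2.1
    linarith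
  | inr h =>
    have hN : (0 : ℝ) < Fintype.card (ι ⊕ κ) := by exact_mod_cast Fintype.card_pos
    obtain ⟨hT1, hT2⟩ := hT M (ι ⊕ κ)
    obtain ⟨X, s, hs, hX⟩ := hC (CStarMatrix (ι ⊕ κ) (ι ⊕ κ) M) (hS M hM (ι ⊕ κ))
      (dsum a (0 : CStarMatrix κ κ M)) (dsum (0 : CStarMatrix ι ι M) b)
      (m / Fintype.card (ι ⊕ κ)) (dsum_nonneg ha le_rfl) (dsum_nonneg le_rfl hb)
      (by
        intro ψ' σ' h'
        obtain ⟨ψ, σ, h1, -, h2⟩ := hT1 ψ' σ' h'
        obtain ⟨h3, h4⟩ := hm ψ σ h1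
        rw [h2 _ (dsum_nonneg ha le_rfl), h2 _ (dsum_nonneg le_rfl hb)]
        have e1 := (qDsumP qBasicP M σ ι κ a 0 ha le_rfl).2
        have e2 := (qDsumP qBasicP M σ ι κ 0 b le_rfl hb).2
        rw [dim_zero] at e1 e2
        rw [e1, e2, add_zero, zero_add]
        exact ⟨by gcongr, by gcongr⟩)
      (ε / Fintype.card (ι ⊕ κ)) (by positivity)
    refine ⟨blk X, s, hs, fun φ σ hσ => ?_⟩
    obtain ⟨ψ', σ', h1, -, h2⟩ := hT2 φ σ hσ
    have h3 := hX ψ' σ' h1
    have hc : 0 ≤ (b * blk X * a).conjTranspose * (b * blk X * a) := cm_conj_mul_nonneg _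
    rw [sq_prod, cut_dsum_zero hc hs.le, h2 _ (dsum_nonneg (cut_nonneg _ _) le_rfl),
      (qDsumP qBasicP M σ ι κ _ 0 (cut_nonneg _ _) le_rfl).2, dim_zero, add_zero, ← sub_div] at h3
    exact (div_le_div_iff_of_pos_right hN).1 h3

end RC
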