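import Pool.Agent.Helper7.SR.Goals

/-!
# Packet SR-HALL: Hall's theorem for fundamental circuits
-/

set_option autoImplicit false

namespace Pool.Agent.Helper86.SR

open Finset
open scoped Classical
open Pool.Agent.Helper7.SR

/-- An element which is spanned by `T` is spanned by its arcs. -/
theorem mem_closure_arcs {α : Type*} (M : Matroid α) (T : Finset α) (hT : M.Indep (T : Set α))
    {x : α} (hxT : x ∉ T) (hx : x ∈ M.closure (T : Set α)) :
    x ∈ M.closure ((T.filter (fun y => Arc M T x y) : Finset α) : Set α) := by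
  have h1 := hT.closure_sInter_eq_biInter_closure_of_forall_subset
    (Js := {J | J ⊆ (T : Set α) ∧ x ∈ M.closure J}) ⟨(T : Set α), subset_rfl, hx⟩
    (fun J hJ => hJ.1)
  have h2 : x ∈ M.closure (⋂₀ {J | J ⊆ (T : Set α) ∧ x ∈ M.closure J}) := by
    rw [h1]
    exact Set.mem_iInter₂.2 fun J hJ => hJ.2
  refine M.closure_subset_closure ?_ h2
  intro y hy
  rw [Set.mem_sInter] at hy
  have hyT : y ∈ T := hy (T : Set α) ⟨subset_rfl, hx⟩
  rw [Finset.mem_coe, Finset.mem_filter]
  refine ⟨hyT, hyT, hxT, hx, fun h => ?_⟩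
  have h3 := hy ((T.erase y : Finset α) : Set α) ⟨by
    rw [Finset.coe_subset]
    exact Finset.erase_subset _ _, h⟩
  rw [Finset.mem_coe] at h3
  exact Finset.notMem_erase y T h3

theorem s_hall.{u} : S_HALL.{u} := by
  intro α M R T q hq hTR hT hD
  let D := {x : α // x ∈ R ∧ x ∉ T ∧ x ∈ M.closure (T : Set α)}
  let t : D → Finset (α × ℕ) := fun x => (T.filter (fun y => Arc M T x.1 y)) ×ˢ range (q - 1)
  have key : ∀ s : Finset D, s.card ≤ (s.biUnion t).card := by
    intro s
    let E : Finset α := s.map ⟨Subtype.val, Subtype.val_injective⟩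
    let Q : Finset α := s.biUnion fun x => T.filter (fun y => Arc M T x.1 y)
    have hQT : Q ⊆ T := by
      intro y hy
      obtain ⟨x, -, hx⟩ := Finset.mem_biUnion.1 hy
      exact (Finset.mem_filter.1 hx).1
    have hbu : s.biUnion t = Q ×ˢ range (q - 1) := by
      ext ⟨y, j⟩
      simp only [t, Q, Finset.mem_biUnion, Finset.mem_product]
      constructor
      · rintro ⟨x, hx, h1, h2⟩
        exact ⟨⟨x, hx, h1⟩, h2⟩
      · rintro ⟨⟨x, hx, h1⟩, h2⟩
        exact ⟨x, hx, h1, h2⟩
    have hE : ∀ x ∈ E, x ∈ R ∧ x ∉ T ∧ x ∈ M.closure (Q : Set α) := by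
      intro x hx
      obtain ⟨x', hx', rfl⟩ := Finset.mem_map.1 hx
      refine ⟨x'.2.1, x'.2.2.1, ?_⟩
      refine M.closure_subset_closure ?_ (mem_closure_arcs M T hT x'.2.2.1 x'.2.2.2)
      rw [Finset.coe_subset]
      intro y hy
      exact Finset.mem_biUnion.2 ⟨x', hx', hy⟩
    have hdis : Disjoint E Q := by
      rw [Finset.disjoint_left]
      intro x hx hxQ
      exact (hE x hx).2.1 (hQT hxQ)
    have hsub : E ∪ Q ⊆ R.filter (fun x => x ∈ M.closure (Q : Set α)) := by
      intro x hx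
      rw [Finset.mem_filter]
      rcases Finset.mem_union.1 hx with h | h
      · exact ⟨(hE x h).1, (hE x h).2.2⟩
      · refine ⟨hTR (hQT h), ?_⟩
        have hQi : M.Indep (Q : Set α) := hT.subset (by rw [Finset.coe_subset]; exact hQT)
        exact M.subset_closure (Q : Set α) hQi.subset_ground h
    have h1 := hD.2 Q (hQT.trans hTR) (hT.subset (by rw [Finset.coe_subset]; exact hQT))
    have h2 := Finset.card_le_card hsub
    rw [Finset.card_union_of_disjoint hdis] at h2
    have h3 : E.card = s.card := Finset.card_map _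
    rw [hbu, Finset.card_product, Finset.card_range]
    obtain ⟨r, rfl⟩ : ∃ r, q = r + 1 := ⟨q - 1, by omega⟩
    rw [Nat.add_sub_cancel]
    have h4 : (r + 1) * Q.card = Q.card * r + Q.card := by ring
    omega
  obtain ⟨f, hf, hft⟩ := (Finset.all_card_le_biUnion_card_iff_exists_injective t).1 key
  by_cases hne : Nonempty (α × ℕ)
  · obtain ⟨z⟩ := hne
    refine ⟨fun x => if h : x ∈ R ∧ x ∉ T ∧ x ∈ M.closure (T : Set α) then f ⟨x, h⟩ else z,
      ?_, ?_⟩
    · intro x h1 h2 h3
      beta_reduce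
      rw [dif_pos ⟨h1, h2, h3⟩]
      have h4 := hft ⟨x, h1, h2, h3⟩
      simp only [t, Finset.mem_product, Finset.mem_filter, Finset.mem_range] at h4
      exact ⟨h4.1.2, h4.2⟩
    · intro x x' h1 h2 h3 h1' h2' h3' h
      beta_reduce at h
      rw [dif_pos ⟨h1, h2, h3⟩, dif_pos ⟨h1', h2', h3'⟩] at h
      exact congrArg Subtype.val (hf h)
  · refine ⟨fun x => (hne ⟨(x, 0)⟩).elim, ?_, ?_⟩
    · intro x
      exact (hne ⟨(x, 0)⟩).elim
    · intro x
      exact (hne ⟨(x, 0)⟩).elim

end Pool.Agent.Helper86.SR
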